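import Pool.Agent.H71.EQ.Targets

/-!
Row RED of the board EQ: reduction to height at most `X ^ (1 / n + ε₀)`.
-/

set_option autoImplicit false

open Pool.Agent.H38.AE.Statement Pool.Agent.H38.AT

namespace Pool.Agent.H71.EQ

private lemma red_fin (n : ℕ) (B : ℝ) : {x : Fin n → ℤ | (height x : ℝ) ≤ B}.Finite := by
  refine (Set.finite_Icc (fun _ : Fin n => -(⌊B⌋₊ : ℤ)) (fun _ => (⌊B⌋₊ : ℤ))).subset ?_
  intro x hx
  have h : ∀ i, (x i).natAbs ≤ ⌊B⌋₊ := by
    intro i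
    have h1 : (x i).natAbs ≤ height x := Finset.le_sup (f := fun i => (x i).natAbs)
      (Finset.mem_univ i)
    exact h1.trans (Nat.le_floor hx)
  refine ⟨fun i => ?_, fun i => ?_⟩
  · have := h i
    show -(⌊B⌋₊ : ℤ) ≤ x i
    omega
  · have := h i
    show x i ≤ (⌊B⌋₊ : ℤ)
    omega

private lemma red_ex {n : ℕ} (x : Fin (n + 1) → ℤ) : ∃ i, (height x : ℝ) = |(x i : ℝ)| := by
  obtain ⟨i, _, hi⟩ := Finset.exists_mem_eq_sup (Finset.univ : Finset (Fin (n + 1)))
    Finset.univ_nonempty (fun i => (x i).natAbs)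
  refine ⟨i, ?_⟩
  unfold height
  rw [hi, Nat.cast_natAbs, Int.cast_abs]

private lemma red_pow (r X e e' : ℝ) (h0 : 0 ≤ r) (h1 : r ≤ X) (hX : 1 ≤ X) (he : 0 ≤ e)
    (hee : e ≤ e') : r ^ e ≤ X ^ e' :=
  (Real.rpow_le_rpow h0 h1 he).trans (Real.rpow_le_rpow_of_exponent_le hX hee)

theorem pf_RED (h1 : T_AT3) (h2 : T_ATN) : T_RED := by
  intro k ε ε₀ hk hε hε1 hε₀
  rcases Nat.lt_or_ge 2 k with hk3 | hk2
  · have hm : 0 < min ε ε₀ := lt_min hε hε₀
    obtain ⟨ρ, δ, C, hρ, hδ, hC, H⟩ := h2 (k + 1) (by omega) (min ε ε₀) hm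
    refine ⟨ρ, δ, C, hρ, hδ, hC, ?_⟩
    intro X hX
    obtain ⟨Hf, Hc⟩ := H X (by linarith)
    have hX1 : (1 : ℝ) ≤ X := by linarith
    have hlog : 1 ≤ Real.log X := by
      rw [Real.le_log_iff_exp_le (by linarith)]
      have := Real.exp_one_lt_d9
      linarith
    have hnu : 1 / (((k + 1 : ℕ) : ℝ)) = nu k := by
      unfold nu
      push_cast
      rfl
    rw [hnu] at Hf Hc
    have hnu0 : 0 < nu k := by
      unfold nu
      positivity
    have hsub : {x | x ∈ Tuples k ε ρ X ∧ X ^ (nu k + ε₀) < (height x : ℝ)} ⊆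
        Pool.Agent.H38.AT.Violators (k + 1) (nu k + min ε ε₀) (min ε ε₀) ρ X := by
      rintro x ⟨⟨ha, hr, hin⟩, hh⟩
      refine ⟨ha, hr, ?_, ?_⟩
      · rcases hin with h | h
        · omega
        · rcases h with h | h
          · left
            refine h.trans (Real.rpow_le_rpow_of_exponent_le hlog ?_)
            have := min_le_left ε ε₀
            linarith
          · right
            exact h
      · refine lt_of_le_of_lt ?_ hh
        refine red_pow _ _ _ _ (Nat.cast_nonneg _) hr hX1 (by linarith) ?_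
        have := min_le_right ε ε₀
        linarith
    refine ⟨?_, ?_⟩
    · refine ((red_fin (k + 1) (X ^ (nu k + ε₀))).union Hf).subset ?_
      intro x hx
      rcases le_or_gt (height x : ℝ) (X ^ (nu k + ε₀)) with h | h
      · exact Or.inl h
      · exact Or.inr (hsub ⟨hx, h⟩)
    · refine le_trans ?_ Hc
      exact_mod_cast Set.ncard_le_ncard hsub Hf
  · obtain rfl : k = 2 := by omega
    obtain ⟨δ, C, hδ, hC, H⟩ := h1 ε₀ hε₀
    refine ⟨1, δ, C, one_pos, hδ, hC, ?_⟩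
    intro X hX
    obtain ⟨Hf, Hc⟩ := H X (by linarith)
    have hX1 : (1 : ℝ) ≤ X := by linarith
    have hnu : nu 2 = 1 / 3 := by
      unfold nu
      norm_num
    have hsub : {x | x ∈ Tuples 2 ε 1 X ∧ X ^ (nu 2 + ε₀) < (height x : ℝ)} ⊆
        Pool.Agent.H38.AG.Violators (1 / 3 + ε₀) X := by
      rintro x ⟨⟨ha, hr, _⟩, hh⟩
      refine ⟨ha, hr, ?_⟩
      obtain ⟨i, hi⟩ := red_ex (n := 2) x
      refine ⟨i, ?_⟩
      rw [← hi]
      refine lt_of_le_of_lt ?_ hh
      refine red_pow _ _ _ _ (Nat.cast_nonneg _) hr hX1 (by linarith) ?_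
      rw [hnu]
    refine ⟨?_, ?_⟩
    · refine ((red_fin 3 (X ^ (nu 2 + ε₀))).union Hf).subset ?_
      intro x hx
      rcases le_or_gt (height x : ℝ) (X ^ (nu 2 + ε₀)) with h | h
      · exact Or.inl h
      · exact Or.inr (hsub ⟨hx, h⟩)
    · have h5 : 1 - nu 2 - δ = 2 / 3 - δ := by
        rw [hnu]
        ring
      rw [h5]
      refine le_trans ?_ Hc
      exact_mod_cast Set.ncard_le_ncard hsub Hf

end Pool.Agent.H71.EQ
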